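import Mathlib

/-!
# Products of powers of few integers
-/

set_option autoImplicit false

namespace Pool.Agent.X286.Sz

open Finset

/-- `m` is a product of powers of `N` positive integers `≤ X`; the exponents are arbitrary -/
def PowerProduct (N X m : ℕ) : Prop :=
  ∃ x e : Fin N → ℕ, (∀ j, 1 ≤ x j ∧ x j ≤ X) ∧ m = ∏ j, x j ^ e j

theorem pp_mono {N X Y m : ℕ} (h : X ≤ Y) (hm : PowerProduct N X m) : PowerProduct N Y m := by
  obtain ⟨x, e, h1, h2⟩ := hm
  exact ⟨x, e, fun j => ⟨(h1 j).1, (h1 j).2.trans h⟩, h2⟩

theorem pp_finset {ι : Type*} (s : Finset ι) (f g : ι → ℕ) {N X : ℕ} (hN : s.card ≤ N)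
    (hX : 1 ≤ X) (hf : ∀ i ∈ s, 1 ≤ f i ∧ f i ≤ X) : PowerProduct N X (∏ i ∈ s, f i ^ g i) := by
  obtain ⟨r, rfl⟩ := Nat.exists_eq_add_of_le hN
  refine ⟨Fin.append (fun j => f (s.equivFin.symm j)) (fun _ : Fin r => 1),
    Fin.append (fun j => g (s.equivFin.symm j)) (fun _ : Fin r => 0), fun j => ?_, ?_⟩
  · refine Fin.addCases (fun i => ?_) (fun i => ?_) j
    · rw [Fin.append_left]
      exact hf _ (s.equivFin.symm i).2
    · rw [Fin.append_right]
      exact ⟨le_rfl, hX⟩
  · rw [Fin.prod_univ_add]
    simp only [Fin.append_left, Fin.append_right, pow_zero, prod_const_one, mul_one]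
    rw [← Finset.prod_coe_sort]
    exact (Equiv.prod_comp s.equivFin.symm (fun i : s => f i ^ g i)).symm

/-- the primes dividing `m` but not `M` -/
def prs (M m : ℕ) : Finset ℕ := m.primeFactors.filter (fun p => ¬ p ∣ M)

theorem pp_of {m M n Z : ℕ} (hm : m ≠ 0) (hM : 0 < M)
    (hV : ((prs M m).image m.factorization).card ≤ n) (hZ : ∏ p ∈ prs M m, p ≤ Z)
    (hMZ : M ≤ Z) : PowerProduct (n + (M + 1)) Z m := by
  classical
  have hZ1 : 1 ≤ Z := hM.trans_le hMZ
  have key : PowerProduct (n + (M + 1)) Z (∏ i ∈ ((prs M m).image m.factorization).disjSum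
      (m.primeFactors.filter (fun p => p ∣ M)),
        (Sum.elim (fun e => ∏ p ∈ (prs M m).filter (fun p => m.factorization p = e), p)
          (fun p => p) i) ^ (Sum.elim (fun e => e) (fun p => m.factorization p) i)) := by
    apply pp_finset
    · rw [card_disjSum]
      refine add_le_add hV ?_
      calc (m.primeFactors.filter (fun p => p ∣ M)).card ≤ (range (M + 1)).card := by
            apply card_le_card
            intro p hp
            rw [mem_filter] at hp
            exact mem_range.2 (Nat.lt_succ_of_le (Nat.le_of_dvd hM hp.2))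
        _ = M + 1 := card_range _
    · exact hZ1
    · intro i hi
      rw [mem_disjSum] at hi
      rcases hi with ⟨e, he, rfl⟩ | ⟨p, hp, rfl⟩
      · simp only [Sum.elim_inl]
        have hpos : ∀ p ∈ prs M m, 1 ≤ p := fun p hp =>
          (Nat.prime_of_mem_primeFactors (mem_filter.1 hp).1).one_lt.le
        constructor
        · exact Nat.one_le_iff_ne_zero.2 (prod_ne_zero_iff.2 fun p hp => by
            have := hpos p (mem_filter.1 hp).1
            omega)
        · exact (prod_le_prod_of_subset_of_one_le' (filter_subset _ _)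
            fun p hp _ => hpos p hp).trans hZ
      · simp only [Sum.elim_inr]
        rw [mem_filter] at hp
        exact ⟨(Nat.prime_of_mem_primeFactors hp.1).one_lt.le, (Nat.le_of_dvd hM hp.2).trans hMZ⟩
  rw [prod_disjSum] at key
  simp only [Sum.elim_inl, Sum.elim_inr] at key
  have e1 : ∏ e ∈ (prs M m).image m.factorization,
      (∏ p ∈ (prs M m).filter (fun p => m.factorization p = e), p) ^ e =
      ∏ p ∈ prs M m, p ^ m.factorization p := by
    rw [← prod_fiberwise_of_maps_to (s := prs M m) (t := (prs M m).image m.factorization)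
      (g := m.factorization) (fun p hp => mem_image_of_mem _ hp)]
    refine prod_congr rfl fun e _ => ?_
    rw [← prod_pow]
    refine prod_congr rfl fun p hp => ?_
    rw [(mem_filter.1 hp).2]
  rw [e1] at key
  have e2 : m = (∏ p ∈ prs M m, p ^ m.factorization p) *
      ∏ p ∈ m.primeFactors.filter (fun p => p ∣ M), p ^ m.factorization p := by
    conv_lhs => rw [← Nat.factorization_prod_pow_eq_self hm]
    rw [Finsupp.prod, Nat.support_factorization, mul_comm]
    unfold prs
    exact (prod_filter_mul_prod_filter_not _ _ _).symm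
  rw [e2]
  exact key

end Pool.Agent.X286.Sz
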