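import Mathlib

/-!
# Homogenised polynomials and the denominators of the values of a rational function near a pole
-/

set_option autoImplicit false

namespace Pool.Agent.X286.Sz

open Finset Polynomial

/-- the form of degree `m` of the polynomial `P` -/
def hom (P : ℤ[X]) (m : ℕ) (x y : ℤ) : ℤ :=
  ∑ i ∈ range (m + 1), P.coeff i * x ^ i * y ^ (m - i)

theorem hom_ev {P : ℤ[X]} {m : ℕ} (hP : P.natDegree ≤ m) (x y : ℤ) (hy : y ≠ 0) :
    ((hom P m x y : ℤ) : ℚ) = (y : ℚ) ^ m * aeval ((x : ℚ) / y) P := by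
  have hy' : (y : ℚ) ≠ 0 := by exact_mod_cast hy
  rw [aeval_eq_sum_range' (Nat.lt_succ_of_le hP), hom, mul_sum]
  push_cast
  refine sum_congr rfl fun i hi => ?_
  have hi' : i ≤ m := Nat.lt_succ_iff.1 (mem_range.1 hi)
  obtain ⟨k, rfl⟩ := Nat.exists_eq_add_of_le hi'
  rw [Nat.add_sub_cancel_left, div_pow, pow_add, zsmul_eq_mul]
  field_simp

theorem hom_congr (P : ℤ[X]) (m : ℕ) (x y ρ σ : ℤ) :
    σ * x - ρ * y ∣ σ ^ m * hom P m x y - y ^ m * hom P m ρ σ := by
  rw [hom, hom, mul_sum, mul_sum, ← sum_sub_distrib]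
  refine dvd_sum fun i hi => ?_
  have hi' : i ≤ m := Nat.lt_succ_iff.1 (mem_range.1 hi)
  obtain ⟨k, rfl⟩ := Nat.exists_eq_add_of_le hi'
  rw [Nat.add_sub_cancel_left]
  have h : σ ^ (i + k) * (P.coeff i * x ^ i * y ^ k) - y ^ (i + k) * (P.coeff i * ρ ^ i * σ ^ k) =
      P.coeff i * (σ * y) ^ k * ((σ * x) ^ i - (ρ * y) ^ i) := by
    ring
  rw [h]
  exact Dvd.dvd.mul_left (sub_dvd_pow_sub_pow _ _ _) _

theorem hom_ndvd {P : ℤ[X]} {m : ℕ} {x y ρ σ : ℤ} {p : ℤ} (hp : Prime p)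
    (hL : p ∣ σ * x - ρ * y) (hy : ¬ p ∣ y) (h : ¬ p ∣ hom P m ρ σ) : ¬ p ∣ hom P m x y := by
  intro h1
  have h2 := hL.trans (hom_congr P m x y ρ σ)
  have h3 : p ∣ y ^ m * hom P m ρ σ := by
    have := dvd_sub (Dvd.dvd.mul_left h1 (σ ^ m)) h2
    simpa using this
  rcases hp.dvd_or_dvd h3 with h4 | h4
  · exact hy (hp.dvd_of_dvd_pow h4)
  · exact h h4

/-- a bound of the form -/
theorem hom_le (P : ℤ[X]) (m : ℕ) (x y H : ℤ) (hx : |x| ≤ H) (hy : |y| ≤ H) :
    |hom P m x y| ≤ (∑ i ∈ range (m + 1), |P.coeff i|) * H ^ m := by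
  have hH : 0 ≤ H := (abs_nonneg x).trans hx
  rw [hom, sum_mul]
  refine (abs_sum_le_sum_abs _ _).trans (sum_le_sum fun i hi => ?_)
  have hi' : i ≤ m := Nat.lt_succ_iff.1 (mem_range.1 hi)
  rw [abs_mul, abs_mul, abs_pow, abs_pow, mul_assoc]
  refine mul_le_mul_of_nonneg_left ?_ (abs_nonneg _)
  calc |x| ^ i * |y| ^ (m - i) ≤ H ^ i * H ^ (m - i) :=
        mul_le_mul (pow_le_pow_left₀ (abs_nonneg _) hx _) (pow_le_pow_left₀ (abs_nonneg _) hy _)
          (by positivity) (by positivity)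
    _ = H ^ m := by rw [← pow_add, Nat.add_sub_cancel' hi']

theorem split_root {G : ℤ[X]} (hG : G ≠ 0) {ρ σ : ℤ} (hσ : σ ≠ 0)
    (h0 : aeval ((ρ : ℚ) / σ) G = 0) : ∃ (c : ℤ) (e : ℕ) (G2 : ℤ[X]), c ≠ 0 ∧ 0 < e ∧
      C c * G = (C σ * X - C ρ) ^ e * G2 ∧ aeval ((ρ : ℚ) / σ) G2 ≠ 0 := by
  have hσ' : (σ : ℚ) ≠ 0 := by exact_mod_cast hσ
  set r : ℚ := (ρ : ℚ) / σ with hr
  set G' : ℚ[X] := G.map (algebraMap ℤ ℚ) with hG'
  have hinj : Function.Injective (algebraMap ℤ ℚ) := RingHom.injective_int _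
  have hG'0 : G' ≠ 0 := by
    rw [hG', Ne, Polynomial.map_eq_zero_iff hinj]
    exact hG
  have hroot : G'.IsRoot r := by
    rw [IsRoot.def, hG', eval_map_algebraMap]
    exact h0
  obtain ⟨G1, h1, h2⟩ := exists_eq_pow_rootMultiplicity_mul_and_not_dvd G' hG'0 r
  have he : 0 < G'.rootMultiplicity r := (rootMultiplicity_pos hG'0).2 hroot
  set e := G'.rootMultiplicity r with hedef
  obtain ⟨b, hb0, hb⟩ := IsLocalization.integerNormalization_spec (nonZeroDivisors ℤ) G1
  have hb0' : b ≠ 0 := nonZeroDivisors.ne_zero hb0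
  set G2 := IsLocalization.integerNormalization (nonZeroDivisors ℤ) G1 with hG2
  have hb' : G2.map (algebraMap ℤ ℚ) = C (b : ℚ) * G1 := by
    rw [hb, zsmul_eq_mul]
    simp
  refine ⟨σ ^ e * b, e, G2, mul_ne_zero (pow_ne_zero _ hσ) hb0', he, ?_, ?_⟩
  · apply Polynomial.map_injective _ hinj
    rw [Polynomial.map_mul, Polynomial.map_mul, Polynomial.map_pow, Polynomial.map_sub,
      Polynomial.map_mul, hb', map_C, map_C, map_C, map_X]
    have hl : C ((algebraMap ℤ ℚ) σ) * X - C ((algebraMap ℤ ℚ) ρ) = C (σ : ℚ) * (X - C r) := by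
      rw [mul_sub, ← C_mul, hr, mul_div_cancel₀ _ hσ']
      simp
    rw [hl, mul_pow, ← hG']
    conv_lhs => rw [h1]
    rw [map_mul, map_pow, C_mul, C_pow]
    simp only [eq_intCast]
    ring
  · intro h
    apply h2
    rw [dvd_iff_isRoot, IsRoot.def]
    have h3 : eval r (G2.map (algebraMap ℤ ℚ)) = 0 := by
      rw [eval_map_algebraMap]
      exact h
    rw [hb', eval_mul, eval_C] at h3
    have : (b : ℚ) ≠ 0 := by exact_mod_cast hb0'
    exact (mul_eq_zero.1 h3).resolve_left this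

/-- near a pole `ρ / σ` of `F / G` the exponents of the denominator of `F (t) / G (t)` are `e` times
those of `σ x - ρ y`, `t = x / y`, outside the divisors of a constant `M` -/
theorem pole (F G : ℤ[X]) (hG0 : G ≠ 0) (ρ σ : ℤ) (hσ : σ ≠ 0)
    (h0 : aeval ((ρ : ℚ) / σ) G = 0) (h1 : aeval ((ρ : ℚ) / σ) F ≠ 0) :
    ∃ M e : ℕ, 0 < M ∧ 0 < e ∧ ∀ t : ℚ, aeval t G ≠ 0 → ∀ p : ℕ, p.Prime → ¬ p ∣ M →
      (p : ℤ) ∣ σ * t.num - ρ * t.den →
      (aeval t F / aeval t G).den.factorization p =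
        e * (σ * t.num - ρ * t.den).natAbs.factorization p := by
  obtain ⟨c, e, G2, hc, he, hG, hG2⟩ := split_root hG0 hσ h0
  have hσ' : (σ : ℚ) ≠ 0 := by exact_mod_cast hσ
  set m := max F.natDegree G.natDegree with hm
  have hFm : F.natDegree ≤ m := le_max_left _ _
  have hGm : G.natDegree ≤ m := le_max_right _ _
  have hG20 : G2 ≠ 0 := by
    rintro rfl
    simp at hG2
  have hdeg : e + G2.natDegree ≤ m := by
    have h3 : (C c * G).natDegree = G.natDegree := natDegree_C_mul hc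
    have h4 : ((C σ * X - C ρ) ^ e * G2).natDegree = e + G2.natDegree := by
      have h5 : (C σ * X - C ρ).natDegree = 1 := by
        rw [sub_eq_add_neg, ← C_neg]
        exact natDegree_linear hσ
      have h6 : (C σ * X - C ρ) ≠ 0 := by
        intro h
        rw [h] at h5
        simp at h5
      rw [natDegree_mul (pow_ne_zero _ h6) hG20, natDegree_pow, h5, mul_one]
    rw [hG] at h3
    omega
  have hF0 : hom F m ρ σ ≠ 0 := by
    intro h
    have := hom_ev hFm ρ σ hσ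
    rw [h] at this
    push_cast at this
    exact (mul_ne_zero (pow_ne_zero _ hσ') h1) this.symm
  have hG2m : G2.natDegree ≤ m - e := by omega
  have hG20' : hom G2 (m - e) ρ σ ≠ 0 := by
    intro h
    have := hom_ev hG2m ρ σ hσ
    rw [h] at this
    push_cast at this
    exact (mul_ne_zero (pow_ne_zero _ hσ') hG2) this.symm
  refine ⟨(c * σ * hom F m ρ σ * hom G2 (m - e) ρ σ).natAbs, e, ?_, he, ?_⟩
  · exact Int.natAbs_pos.2 (mul_ne_zero (mul_ne_zero (mul_ne_zero hc hσ) hF0) hG20')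
  intro t ht p hp hpM hpL
  have hpM' : ¬ (p : ℤ) ∣ c * σ * hom F m ρ σ * hom G2 (m - e) ρ σ := by
    rwa [Int.natCast_dvd]
  have hpi : Prime (p : ℤ) := Nat.prime_iff_prime_int.1 hp
  have hpc : ¬ (p : ℤ) ∣ c := fun h => hpM' (((h.mul_right _).mul_right _).mul_right _)
  have hpσ : ¬ (p : ℤ) ∣ σ := fun h => hpM' (((h.mul_left _).mul_right _).mul_right _)
  have hpF : ¬ (p : ℤ) ∣ hom F m ρ σ := fun h => hpM' ((h.mul_left _).mul_right _)
  have hpG : ¬ (p : ℤ) ∣ hom G2 (m - e) ρ σ := fun h => hpM' (h.mul_left _)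
  have hy0 : (t.den : ℤ) ≠ 0 := by exact_mod_cast t.den_nz
  have hy0' : (t.den : ℚ) ≠ 0 := by exact_mod_cast t.den_nz
  have hpy : ¬ (p : ℤ) ∣ (t.den : ℤ) := by
    intro h
    have h3 : (p : ℤ) ∣ σ * t.num := by
      have := dvd_add hpL (h.mul_left ρ)
      simpa using this
    rcases hpi.dvd_or_dvd h3 with h4 | h4
    · exact hpσ h4
    · have h5 : p ∣ t.num.natAbs := Int.natCast_dvd.1 h4
      have h6 : p ∣ t.den := Int.natCast_dvd_natCast.1 h
      have h7 := Nat.dvd_gcd h5 h6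
      rw [t.reduced] at h7
      exact hp.one_lt.ne' (Nat.dvd_one.1 h7)
  have hFn := hom_ndvd hpi hpL hpy hpF
  have hGn := hom_ndvd hpi hpL hpy hpG
  have htq : ((t.num : ℤ) : ℚ) / ((t.den : ℤ) : ℚ) = t := by
    rw [Int.cast_natCast]
    exact t.num_div_den
  have eF := hom_ev hFm t.num t.den hy0
  have eG := hom_ev hGm t.num t.den hy0
  have eG2 := hom_ev hG2m t.num t.den hy0
  rw [htq] at eF eG eG2
  push_cast at eF eG eG2
  -- the form of `G`
  have hfac : c * hom G m t.num t.den = (σ * t.num - ρ * t.den) ^ e * hom G2 (m - e) t.num t.den := by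
    have h3 : (c : ℚ) * aeval t G = ((σ : ℚ) * t - ρ) ^ e * aeval t G2 := by
      have := congrArg (fun P : ℤ[X] => aeval t P) hG
      simpa using this
    have h4 : ((σ : ℚ) * t.num - ρ * t.den) = t.den * (σ * t - ρ) := by
      have h5 : (t.num : ℚ) = t * t.den := (Rat.mul_den_eq_num t).symm
      rw [h5]
      ring
    have h6 : ((c * hom G m t.num t.den : ℤ) : ℚ) =
        (((σ * t.num - ρ * t.den) ^ e * hom G2 (m - e) t.num t.den : ℤ) : ℚ) := by
      push_cast
      rw [eG, eG2, h4, mul_pow]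
      have h7 : (t.den : ℚ) ^ m = (t.den : ℚ) ^ e * (t.den : ℚ) ^ (m - e) := by
        rw [← pow_add]
        congr 1
        omega
      rw [h7]
      linear_combination ((t.den : ℚ) ^ e * (t.den : ℚ) ^ (m - e)) * h3
    exact_mod_cast h6
  have hGne : hom G m t.num t.den ≠ 0 := by
    intro h
    rw [h] at eG
    push_cast at eG
    exact (mul_ne_zero (pow_ne_zero _ hy0') ht) eG.symm
  have hLne : σ * t.num - ρ * t.den ≠ 0 := by
    intro h
    rw [h, zero_pow he.ne', zero_mul] at hfac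
    exact (mul_ne_zero hc hGne) hfac
  have hG2ne : hom G2 (m - e) t.num t.den ≠ 0 := fun h => hGn (h ▸ dvd_zero _)
  have hFne : hom F m t.num t.den ≠ 0 := fun h => hFn (h ▸ dvd_zero _)
  have hv : (hom G m t.num t.den).natAbs.factorization p =
      e * (σ * t.num - ρ * t.den).natAbs.factorization p := by
    have h3 := congrArg (fun z : ℤ => z.natAbs.factorization p) hfac
    simp only [Int.natAbs_mul, Int.natAbs_pow] at h3
    rw [Nat.factorization_mul (Int.natAbs_ne_zero.2 hc) (Int.natAbs_ne_zero.2 hGne),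
      Nat.factorization_mul (pow_ne_zero _ (Int.natAbs_ne_zero.2 hLne))
        (Int.natAbs_ne_zero.2 hG2ne), Nat.factorization_pow] at h3
    simp only [Finsupp.add_apply, Finsupp.smul_apply, smul_eq_mul] at h3
    rw [Nat.factorization_eq_zero_of_not_dvd (fun h => hpc (Int.natCast_dvd.2 h)),
      Nat.factorization_eq_zero_of_not_dvd (fun h => hGn (Int.natCast_dvd.2 h))] at h3
    omega
  -- the quotient
  set j : ℚ := aeval t F / aeval t G with hj
  have hcross : j.num * hom G m t.num t.den = hom F m t.num t.den * j.den := by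
    have h3 : j * (hom G m t.num t.den : ℤ) = (hom F m t.num t.den : ℤ) := by
      rw [eF, eG, hj]
      field_simp
    have h4 : (j.num : ℚ) = j * j.den := (Rat.mul_den_eq_num j).symm
    have h5 : ((j.num * hom G m t.num t.den : ℤ) : ℚ) =
        ((hom F m t.num t.den * j.den : ℤ) : ℚ) := by
      push_cast
      rw [h4, ← h3]
      ring
    exact_mod_cast h5
  have hjne : j.num ≠ 0 := by
    intro h
    rw [h, zero_mul] at hcross
    have : (j.den : ℤ) ≠ 0 := by exact_mod_cast j.den_nz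
    exact (mul_ne_zero hFne this) hcross.symm
  have h3 := congrArg (fun z : ℤ => z.natAbs.factorization p) hcross
  simp only [Int.natAbs_mul, Int.natAbs_natCast] at h3
  rw [Nat.factorization_mul (Int.natAbs_ne_zero.2 hjne) (Int.natAbs_ne_zero.2 hGne),
    Nat.factorization_mul (Int.natAbs_ne_zero.2 hFne) j.den_nz] at h3
  simp only [Finsupp.add_apply] at h3
  rw [Nat.factorization_eq_zero_of_not_dvd (fun h => hFn (Int.natCast_dvd.2 h)), zero_add] at h3
  have hpos : 0 < (σ * t.num - ρ * t.den).natAbs.factorization p :=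
    hp.factorization_pos_of_dvd (Int.natAbs_ne_zero.2 hLne) (Int.natCast_dvd.1 hpL)
  have hpos' : 0 < e * (σ * t.num - ρ * t.den).natAbs.factorization p := Nat.mul_pos he hpos
  have hden : 0 < j.den.factorization p := by omega
  have hpden : p ∣ j.den := Nat.dvd_of_factorization_pos hden.ne'
  have hpnum : ¬ p ∣ j.num.natAbs := by
    intro h
    have h7 := Nat.dvd_gcd h hpden
    rw [j.reduced] at h7
    exact hp.one_lt.ne' (Nat.dvd_one.1 h7)
  rw [Nat.factorization_eq_zero_of_not_dvd hpnum, zero_add] at h3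
  rw [← h3, hv]

end Pool.Agent.X286.Sz
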