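import Mathlib

/-!
# The discriminant of a minimal model in terms of the invariant and the conductor
-/

set_option autoImplicit false

namespace Pool.Agent.X286.Sz

open Finset

/-- the discriminant `D = 4a³ - 27b²` of the model `y² = x³ - a x - b` -/
def Disc (a b : ℤ) : ℤ := 4 * a ^ 3 - 27 * b ^ 2

/-- the model `y² = x³ - a x - b` is an elliptic curve (`D ≠ 0`) and it is minimal: `|D|` is
smallest among the integral models `y² = x³ - a' x - b'`, `a' = u⁴ a`, `b' = u⁶ b`, `u ∈ ℚ^×` -/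
def IsMinimal (a b : ℤ) : Prop :=
  Disc a b ≠ 0 ∧ ∀ (u : ℚ) (a' b' : ℤ), u ≠ 0 → (a' : ℚ) = u ^ 4 * a → (b' : ℚ) = u ^ 6 * b →
    |Disc a b| ≤ |Disc a' b'|

/-- the prime-to-6 part of the conductor of a minimal model: the product over the primes `p ≥ 5`
dividing `D` of `p` (node: `p ∤ a`) or `p²` (cusp: `p ∣ a`) -/
def Cond6 (a b : ℤ) : ℕ :=
  ∏ p ∈ (Disc a b).natAbs.primeFactors.filter (fun p => 5 ≤ p), if (p : ℤ) ∣ a then p ^ 2 else p

/-- the invariant of `y² = x³ - a x - b` -/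
def jInv (a b : ℤ) : ℚ := 6912 * a ^ 3 / Disc a b

theorem cond_pos (a b : ℤ) : 0 < Cond6 a b := by
  unfold Cond6
  refine prod_pos fun p hp => ?_
  have : 0 < p := by
    have := (mem_filter.1 hp).2
    omega
  split_ifs <;> positivity

theorem dvd_cond {a b : ℤ} (hD : Disc a b ≠ 0) {p : ℕ} (hp : p.Prime) (h5 : 5 ≤ p)
    (hpD : (p : ℤ) ∣ Disc a b) : p ∣ Cond6 a b := by
  have hmem : p ∈ (Disc a b).natAbs.primeFactors.filter (fun p => 5 ≤ p) := by
    rw [mem_filter, Nat.mem_primeFactors]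
    exact ⟨⟨hp, Int.natCast_dvd.1 hpD, Int.natAbs_ne_zero.2 hD⟩, h5⟩
  refine dvd_trans ?_ (dvd_prod_of_mem _ hmem)
  split_ifs
  · exact dvd_pow_self p two_ne_zero
  · exact dvd_rfl

/-- the product of the primes `p ≥ 5` in the denominator of the invariant is at most the
conductor -/
theorem prod_le_cond {a b : ℤ} (hD : Disc a b ≠ 0) :
    ∏ p ∈ (jInv a b).den.primeFactors.filter (fun p => 5 ≤ p), p ≤ Cond6 a b := by
  have hcross : (jInv a b).num * Disc a b = 6912 * a ^ 3 * (jInv a b).den := by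
    have hDq : ((Disc a b : ℤ) : ℚ) ≠ 0 := by exact_mod_cast hD
    have h1 : jInv a b * Disc a b = 6912 * a ^ 3 := by
      rw [jInv]
      field_simp
    have h2 : ((jInv a b).num : ℚ) = jInv a b * (jInv a b).den := (Rat.mul_den_eq_num _).symm
    have h3 : (((jInv a b).num * Disc a b : ℤ) : ℚ) = ((6912 * a ^ 3 * (jInv a b).den : ℤ) : ℚ) := by
      push_cast
      rw [h2]
      linear_combination ((jInv a b).den : ℚ) * h1
    exact_mod_cast h3
  have hsub : (jInv a b).den.primeFactors.filter (fun p => 5 ≤ p) ⊆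
      (Disc a b).natAbs.primeFactors.filter (fun p => 5 ≤ p) := by
    intro p hp
    rw [mem_filter, Nat.mem_primeFactors] at hp ⊢
    obtain ⟨⟨hpp, hpd, -⟩, h5⟩ := hp
    refine ⟨⟨hpp, ?_, Int.natAbs_ne_zero.2 hD⟩, h5⟩
    have hpi : Prime (p : ℤ) := Nat.prime_iff_prime_int.1 hpp
    have h1 : (p : ℤ) ∣ (jInv a b).num * Disc a b := by
      rw [hcross]
      exact Dvd.dvd.mul_left (Int.natCast_dvd_natCast.2 hpd) _
    rcases hpi.dvd_or_dvd h1 with h2 | h2
    · exfalso
      have h3 := Nat.dvd_gcd (Int.natCast_dvd.1 h2) hpd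
      rw [(jInv a b).reduced] at h3
      exact hpp.one_lt.ne' (Nat.dvd_one.1 h3)
    · exact Int.natCast_dvd.1 h2
  refine (prod_le_prod_of_subset_of_one_le' hsub ?_).trans ?_
  · intro p hp _
    have := (mem_filter.1 hp).2
    omega
  · unfold Cond6
    refine prod_le_prod' fun p hp => ?_
    have := (mem_filter.1 hp).2
    split_ifs
    · nlinarith
    · exact le_rfl

/-- the discriminant of a minimal model -/
theorem disc_le {a b : ℤ} (h : IsMinimal a b) (h0 : jInv a b ≠ 0) (h1 : jInv a b ≠ 1728) :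
    ∀ H : ℕ, (jInv a b).num.natAbs ≤ H → (jInv a b).den ≤ H →
      (Disc a b).natAbs ≤ 108 * 1728 * 6 ^ 6 * 1729 ^ 9 * (H ^ 18 * Cond6 a b ^ 6) := by
  intro H hH1 hH2
  obtain ⟨hD, hmin⟩ := h
  have hDq : ((Disc a b : ℤ) : ℚ) ≠ 0 := by exact_mod_cast hD
  set P : ℤ := (jInv a b).num with hP
  set Q : ℕ := (jInv a b).den with hQ
  set N := Cond6 a b with hN
  have hQ0 : (Q : ℤ) ≠ 0 := by
    rw [hQ]
    exact_mod_cast (jInv a b).den_nz
  have hQq : (Q : ℚ) ≠ 0 := by exact_mod_cast hQ0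
  have hPQ : (P : ℚ) = jInv a b * Q := (Rat.mul_den_eq_num _).symm
  have hj : jInv a b * Disc a b = 6912 * a ^ 3 := by
    rw [jInv]
    field_simp
  have hj2 : (jInv a b - 1728) * Disc a b = 46656 * b ^ 2 := by
    rw [sub_mul, hj, Disc]
    push_cast
    ring
  set M : ℤ := P - 1728 * Q with hM
  have c1 : P * Disc a b = 6912 * a ^ 3 * Q := by
    have h3 : ((P * Disc a b : ℤ) : ℚ) = ((6912 * a ^ 3 * Q : ℤ) : ℚ) := by
      push_cast
      rw [hPQ]
      linear_combination (Q : ℚ) * hj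
    exact_mod_cast h3
  have c2 : M * Disc a b = 46656 * b ^ 2 * Q := by
    have h3 : ((M * Disc a b : ℤ) : ℚ) = ((46656 * b ^ 2 * Q : ℤ) : ℚ) := by
      rw [hM]
      push_cast
      rw [hPQ]
      linear_combination (Q : ℚ) * hj2
    exact_mod_cast h3
  have hP0 : P ≠ 0 := by
    intro h3
    apply h0
    exact Rat.num_eq_zero.1 h3
  have hM0 : M ≠ 0 := by
    intro h3
    apply h1
    have h4 : (P : ℚ) = 1728 * Q := by
      have : P = 1728 * Q := by omega
      exact_mod_cast this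
    rw [hPQ] at h4
    exact mul_right_cancel₀ hQq h4
  have ha0 : a ≠ 0 := by
    rintro rfl
    simp at c1
    exact c1.elim hP0 hD
  have hb0 : b ≠ 0 := by
    rintro rfl
    simp at c2
    exact c2.elim hM0 hD
  have c3 : 4 * a ^ 3 * M = 27 * b ^ 2 * P := by
    have h3 : Disc a b * (Q * (4 * a ^ 3 * M * 1728)) = Disc a b * (Q * (27 * b ^ 2 * P * 1728)) := by
      linear_combination (-(M * Disc a b)) * c1 + (P * Disc a b) * c2
    have h4 := mul_left_cancel₀ hQ0 (mul_left_cancel₀ hD h3)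
    linarith
  set a0 : ℤ := 3 * P * M with ha0'
  set b0 : ℤ := 2 * P * M ^ 2 with hb0'
  have c4 : a ^ 3 * b0 ^ 2 = a0 ^ 3 * b ^ 2 := by
    rw [ha0', hb0']
    linear_combination (P ^ 2 * M ^ 3) * c3
  have ha00 : a0 ≠ 0 := mul_ne_zero (mul_ne_zero three_ne_zero hP0) hM0
  have hb00 : b0 ≠ 0 := mul_ne_zero (mul_ne_zero two_ne_zero hP0) (pow_ne_zero _ hM0)
  -- `lam = b a0 / (a b0) = ± d (β / (a b0))²`
  obtain ⟨d, β, hd, hdsq⟩ := Nat.sq_mul_squarefree (b * a0 * (a * b0)).natAbs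
  set ε : ℤ := (b * a0 * (a * b0)).sign with hε
  have hne : b * a0 * (a * b0) ≠ 0 := mul_ne_zero (mul_ne_zero hb0 ha00) (mul_ne_zero ha0 hb00)
  have hdβ : b * a0 * (a * b0) = ε * d * β ^ 2 := by
    have h3 : (b * a0 * (a * b0)) = ε * ((b * a0 * (a * b0)).natAbs : ℤ) :=
      (Int.sign_mul_natAbs _).symm
    rw [← hd] at h3
    push_cast at h3
    linear_combination h3
  have hεsq : ε ^ 2 = 1 := by
    rcases lt_or_gt_of_ne hne with h3 | h3
    · rw [hε, Int.sign_eq_neg_one_of_neg h3]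
      norm_num
    · rw [hε, Int.sign_eq_one_of_pos h3]
      norm_num
  have hε0 : ε ≠ 0 := by
    intro h3
    rw [h3] at hεsq
    norm_num at hεsq
  have hβ0 : (β : ℤ) ≠ 0 := by
    intro h3
    rw [h3] at hdβ
    simp at hdβ
    rcases hdβ with h4 | h4 <;> simp_all
  have hd0 : (d : ℤ) ≠ 0 := by
    intro h3
    rw [h3] at hdβ
    simp at hdβ
    rcases hdβ with h4 | h4 <;> simp_all
  set m : ℤ := a * b0 with hm
  have hm0 : m ≠ 0 := mul_ne_zero ha0 hb00
  -- the twisted model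
  set d' : ℤ := ε * d with hd'
  have hd'0 : d' ≠ 0 := mul_ne_zero hε0 hd0
  have haa : a * m ^ 4 = β ^ 4 * (d' ^ 2 * a0) := by
    -- `(b a0 m)² a0 = d'² β⁴ a0`
    have h3 : (b * a0 * m) ^ 2 = d' ^ 2 * β ^ 4 := by
      rw [hdβ]
      ring
    have h4 : a * m ^ 4 = (b * a0 * m) ^ 2 * a0 := by
      have h5 : m ^ 4 = m ^ 2 * (a ^ 2 * b0 ^ 2) := by
        rw [hm]
        ring
      rw [h5]
      linear_combination (m ^ 2) * c4
    rw [h4, h3]
    ring
  have hbb : b * m ^ 6 = β ^ 6 * (d' ^ 3 * b0) := by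
    have h3 : (b * a0 * m) ^ 3 = d' ^ 3 * β ^ 6 := by
      rw [hdβ]
      ring
    have h4 : b * m ^ 6 = (b * a0 * m) ^ 3 * b0 := by
      have h5 : m ^ 6 = m ^ 3 * (a ^ 3 * b0 ^ 2 * b0) := by
        rw [hm]
        ring
      rw [h5, c4]
      ring
    rw [h4, h3]
    ring
  have hDle : |Disc a b| ≤ |Disc (d' ^ 2 * a0) (d' ^ 3 * b0)| := by
    have hβq : (β : ℚ) ≠ 0 := by exact_mod_cast hβ0
    have hmq : (m : ℚ) ≠ 0 := by exact_mod_cast hm0
    refine hmin ((m : ℚ) / β) _ _ (div_ne_zero hmq hβq) ?_ ?_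
    · have h3 : (a : ℚ) * m ^ 4 = β ^ 4 * ((d' ^ 2 * a0 : ℤ) : ℚ) := by exact_mod_cast haa
      rw [div_pow, div_mul_eq_mul_div, eq_div_iff (pow_ne_zero _ hβq)]
      linear_combination (-1 : ℚ) * h3
    · have h3 : (b : ℚ) * m ^ 6 = β ^ 6 * ((d' ^ 3 * b0 : ℤ) : ℚ) := by exact_mod_cast hbb
      rw [div_pow, div_mul_eq_mul_div, eq_div_iff (pow_ne_zero _ hβq)]
      linear_combination (-1 : ℚ) * h3
  have hDeq : Disc (d' ^ 2 * a0) (d' ^ 3 * b0) = 108 * 1728 * (d' ^ 6 * P ^ 2 * M ^ 3 * Q) := by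
    have h3 : P - M = 1728 * Q := by
      rw [hM]
      ring
    rw [Disc, ha0', hb0']
    linear_combination (108 * d' ^ 6 * P ^ 2 * M ^ 3) * h3
  -- the bound for `d`
  have hdN : d ∣ 6 * P.natAbs * M.natAbs * N := by
    have hdn : d ≠ 0 := by exact_mod_cast hd0
    rw [← Nat.prod_primeFactors_of_squarefree hdsq]
    refine prod_primes_dvd _ (fun p hp => (Nat.prime_of_mem_primeFactors hp).prime) fun p hp => ?_
    obtain ⟨hpp, hpd, -⟩ := Nat.mem_primeFactors.1 hp
    by_cases hc : p ∣ 6 * P.natAbs * M.natAbs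
    · exact hc.mul_right _
    refine Dvd.dvd.mul_left ?_ _
    have hpi : Prime (p : ℤ) := Nat.prime_iff_prime_int.1 hpp
    have hpa0 : ¬ p ∣ a0.natAbs := by
      intro h3
      apply hc
      rw [ha0', Int.natAbs_mul, Int.natAbs_mul] at h3
      refine h3.trans ?_
      exact Nat.mul_dvd_mul (Nat.mul_dvd_mul (by norm_num) dvd_rfl) dvd_rfl
    have hpb0 : ¬ p ∣ b0.natAbs := by
      intro h3
      rw [hb0', Int.natAbs_mul, Int.natAbs_mul, Int.natAbs_pow] at h3
      rcases hpp.dvd_mul.1 h3 with h4 | h4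
      · apply hc
        refine Dvd.dvd.mul_right (h4.trans ?_) _
        exact Nat.mul_dvd_mul (by norm_num) dvd_rfl
      · exact hc ((hpp.dvd_of_dvd_pow h4).mul_left _)
    have hvd : d.factorization p = 1 :=
      le_antisymm (hdsq.natFactorization_le_one p)
        (hpp.factorization_pos_of_dvd hdn hpd)
    have hvε : ε.natAbs.factorization p = 0 := by
      have : ε.natAbs = 1 := by
        have h3 := congrArg Int.natAbs hεsq
        rw [Int.natAbs_pow] at h3
        exact (Nat.pow_eq_one.1 h3).resolve_right two_ne_zero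
      rw [this]
      simp
    have hεn : ε.natAbs ≠ 0 := Int.natAbs_ne_zero.2 hε0
    have hβn : β ≠ 0 := by exact_mod_cast hβ0
    have hmn : m.natAbs ≠ 0 := Int.natAbs_ne_zero.2 hm0
    have han : a.natAbs ≠ 0 := Int.natAbs_ne_zero.2 ha0
    have hbn : b.natAbs ≠ 0 := Int.natAbs_ne_zero.2 hb0
    have ha0n : a0.natAbs ≠ 0 := Int.natAbs_ne_zero.2 ha00
    have hb0n : b0.natAbs ≠ 0 := Int.natAbs_ne_zero.2 hb00
    have hd'n : d'.natAbs = ε.natAbs * d := by
      rw [hd', Int.natAbs_mul, Int.natAbs_natCast]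
    have hva : a.natAbs.factorization p + 4 * m.natAbs.factorization p =
        4 * β.factorization p + 2 := by
      have h3 := congrArg (fun z : ℤ => z.natAbs.factorization p) haa
      simp only [Int.natAbs_mul, Int.natAbs_pow, hd'n, Int.natAbs_natCast] at h3
      rw [Nat.factorization_mul han (pow_ne_zero _ hmn), Nat.factorization_mul
        (pow_ne_zero _ hβn) (mul_ne_zero (pow_ne_zero _ (mul_ne_zero hεn hdn)) ha0n),
        Nat.factorization_mul (pow_ne_zero _ (mul_ne_zero hεn hdn)) ha0n,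
        Nat.factorization_pow, Nat.factorization_pow, Nat.factorization_pow,
        Nat.factorization_mul hεn hdn] at h3
      simp only [Finsupp.add_apply, Finsupp.smul_apply, smul_eq_mul, hvd, hvε,
        Nat.factorization_eq_zero_of_not_dvd hpa0] at h3
      omega
    have hvb : b.natAbs.factorization p + 6 * m.natAbs.factorization p =
        6 * β.factorization p + 3 := by
      have h3 := congrArg (fun z : ℤ => z.natAbs.factorization p) hbb
      simp only [Int.natAbs_mul, Int.natAbs_pow, hd'n, Int.natAbs_natCast] at h3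
      rw [Nat.factorization_mul hbn (pow_ne_zero _ hmn), Nat.factorization_mul
        (pow_ne_zero _ hβn) (mul_ne_zero (pow_ne_zero _ (mul_ne_zero hεn hdn)) hb0n),
        Nat.factorization_mul (pow_ne_zero _ (mul_ne_zero hεn hdn)) hb0n,
        Nat.factorization_pow, Nat.factorization_pow, Nat.factorization_pow,
        Nat.factorization_mul hεn hdn] at h3
      simp only [Finsupp.add_apply, Finsupp.smul_apply, smul_eq_mul, hvd, hvε,
        Nat.factorization_eq_zero_of_not_dvd hpb0] at h3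
      omega
    have hpa : (p : ℤ) ∣ a := Int.natCast_dvd.2 (Nat.dvd_of_factorization_pos (by omega))
    have hpb : (p : ℤ) ∣ b := Int.natCast_dvd.2 (Nat.dvd_of_factorization_pos (by omega))
    refine dvd_cond hD hpp ?_ ?_
    · by_contra h5
      have h6 : p < 5 := by omega
      have h7 : ¬ p ∣ 6 := fun h8 => hc ((h8.mul_right _).mul_right _)
      interval_cases p
      · exact absurd hpp (by norm_num)
      · exact absurd hpp (by norm_num)
      · exact h7 (by norm_num)
      · exact h7 (by norm_num)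
      · exact absurd hpp (by norm_num)
    · rw [Disc]
      exact dvd_sub (Dvd.dvd.mul_left (hpa.trans (dvd_pow_self a three_ne_zero)) _)
        (Dvd.dvd.mul_left (hpb.trans (dvd_pow_self b two_ne_zero)) _)
  have hNpos : 0 < N := cond_pos a b
  have hdle : d ≤ 6 * P.natAbs * M.natAbs * N :=
    Nat.le_of_dvd (Nat.mul_pos (Nat.mul_pos (Nat.mul_pos (by norm_num) (Int.natAbs_pos.2 hP0))
      (Int.natAbs_pos.2 hM0)) hNpos) hdN
  have hMle : M.natAbs ≤ 1729 * H := by
    have : M.natAbs ≤ P.natAbs + 1728 * Q := by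
      rw [hM]
      omega
    omega
  have hfin : (Disc a b).natAbs ≤ 108 * 1728 * (d ^ 6 * P.natAbs ^ 2 * M.natAbs ^ 3 * Q) := by
    have h3 : (Disc a b).natAbs ≤ (Disc (d' ^ 2 * a0) (d' ^ 3 * b0)).natAbs := by
      have h4 := hDle
      rw [Int.abs_eq_natAbs, Int.abs_eq_natAbs] at h4
      exact_mod_cast h4
    refine h3.trans (le_of_eq ?_)
    rw [hDeq]
    simp only [Int.natAbs_mul, Int.natAbs_pow, Int.natAbs_natCast]
    have h5 : d'.natAbs = d := by
      have : ε.natAbs = 1 := by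
        have h3 := congrArg Int.natAbs hεsq
        rw [Int.natAbs_pow] at h3
        exact (Nat.pow_eq_one.1 h3).resolve_right two_ne_zero
      rw [hd', Int.natAbs_mul, this, one_mul, Int.natAbs_natCast]
    have h6 : Int.natAbs 108 = 108 := rfl
    have h7 : Int.natAbs 1728 = 1728 := rfl
    rw [h5, h6, h7]
  refine hfin.trans ?_
  calc 108 * 1728 * (d ^ 6 * P.natAbs ^ 2 * M.natAbs ^ 3 * Q) ≤
      108 * 1728 * ((6 * H * (1729 * H) * N) ^ 6 * H ^ 2 * (1729 * H) ^ 3 * H) := by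
        have h3 : d ≤ 6 * H * (1729 * H) * N := by
          refine hdle.trans ?_
          exact Nat.mul_le_mul_right _ (Nat.mul_le_mul (Nat.mul_le_mul_left _ hH1) hMle)
        gcongr
    _ = 108 * 1728 * 6 ^ 6 * 1729 ^ 9 * (H ^ 18 * N ^ 6) := by ring

end Pool.Agent.X286.Sz
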