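import Pool.Agent.X286.Sz.Three
import Pool.Agent.X286.Sz.Twist
import Pool.Agent.Results.MP_2ec8a3_nt.FewPowersAllHeights

/-!
# Counting the invariants
-/

set_option autoImplicit false

namespace Pool.Agent.X286.Sz

open Finset Polynomial

/-- at most `n` different exponents in the factorisation of the denominator of `j` -/
def Few (n : ℕ) (j : ℚ) : Prop :=
  (j.den.primeFactors.image j.den.factorization).card ≤ n

/-- there is an elliptic curve of invariant `j` with `N₆ ≤ X` and `N₆ ^ κ < |D|` -/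
def Bad (κ X : ℕ) (j : ℚ) : Prop :=
  ∃ a b : ℤ, IsMinimal a b ∧ jInv a b = j ∧ Cond6 a b ≤ X ∧ Cond6 a b ^ κ < (Disc a b).natAbs

/-- the bound for one invariant -/
theorem one {F G : ℤ[X]} (hG : G ≠ 0) {ρ1 σ1 ρ2 σ2 ρ3 σ3 : ℤ} (s1 : σ1 ≠ 0) (s2 : σ2 ≠ 0)
    (s3 : σ3 ≠ 0) (h1 : σ2 * ρ3 - σ3 * ρ2 ≠ 0) (h2 : σ3 * ρ1 - σ1 * ρ3 ≠ 0)
    (h3 : σ1 * ρ2 - σ2 * ρ1 ≠ 0) (g1 : aeval ((ρ1 : ℚ) / σ1) G = 0)
    (g2 : aeval ((ρ2 : ℚ) / σ2) G = 0) (g3 : aeval ((ρ3 : ℚ) / σ3) G = 0)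
    (f1 : aeval ((ρ1 : ℚ) / σ1) F ≠ 0) (f2 : aeval ((ρ2 : ℚ) / σ2) F ≠ 0)
    (f3 : aeval ((ρ3 : ℚ) / σ3) F ≠ 0) (n : ℕ) :
    ∃ (τ : Fin 3 × (ℕ × ℕ) → ℚ) (M m A : ℕ), 0 < M ∧ 0 < A ∧ ∀ (t : ℚ), aeval t G ≠ 0 →
      Few n (aeval t F / aeval t G) → ∀ a b : ℤ, IsMinimal a b →
      jInv a b = aeval t F / aeval t G → jInv a b ≠ 0 → jInv a b ≠ 1728 →
      ∃ (k : Fin 3) (u v : ℕ), 0 < u ∧ 0 < v ∧ u.Coprime v ∧ t = τ (k, (u, v)) ∧
        PowerProduct (n + (M + 1)) (M + Cond6 a b) u ∧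
        PowerProduct (n + (M + 1)) (M + Cond6 a b) v ∧
        PowerProduct (n + (M + 1)) (M + Cond6 a b) (u + v) ∧
        (Disc a b).natAbs ≤ A * ((u + v) ^ m * Cond6 a b ^ 6) := by
  obtain ⟨M1, e1, hM1, he1, p1⟩ := pole F G hG ρ1 σ1 s1 g1 f1
  obtain ⟨M2, e2, hM2, he2, p2⟩ := pole F G hG ρ2 σ2 s2 g2 f2
  obtain ⟨M3, e3, hM3, he3, p3⟩ := pole F G hG ρ3 σ3 s3 g3 f3
  set α1 := σ2 * ρ3 - σ3 * ρ2 with hα1
  set α2 := σ3 * ρ1 - σ1 * ρ3 with hα2
  set α3 := σ1 * ρ2 - σ2 * ρ1 with hα3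
  set Pr := (α1 * α2 * α3).natAbs with hPr
  have hPr0 : 0 < Pr := Int.natAbs_pos.2 (mul_ne_zero (mul_ne_zero h1 h2) h3)
  set M : ℕ := 6 * M1 * M2 * M3 * Pr with hM
  have hM0 : 0 < M := by positivity
  set m0 := max F.natDegree G.natDegree with hm0
  set B : ℤ := (∑ i ∈ range (m0 + 1), |F.coeff i|) + ∑ i ∈ range (m0 + 1), |G.coeff i| with hB
  set A0 : ℤ := (|ρ2 * α2| + |ρ1 * α1|) * |α1 * α2 * α3| + (|σ2 * α2| + |σ1 * α1|) *
          |α1 * α2 * α3| with hA0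
  have hA00 : 0 ≤ A0 := by positivity
  have hB0 : 0 ≤ B := by positivity
  refine ⟨fun q => tau α1 α2 ρ1 σ1 ρ2 σ2 q.1 q.2, M, 18 * m0,
    108 * 1728 * 6 ^ 6 * 1729 ^ 9 * (B.natAbs * A0.natAbs ^ m0) ^ 18 + 1, hM0, Nat.succ_pos _, ?_⟩
  intro t ht hfew a b hmin hj hj0 hj1728
  have hden : (t.den : ℚ) ≠ 0 := by exact_mod_cast t.den_nz
  have hl : ∀ ρ σ : ℤ, σ ≠ 0 → aeval ((ρ : ℚ) / σ) G = 0 → σ * t.num - ρ * t.den ≠ 0 := by
    intro ρ σ hσ hg h
    apply ht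
    have hσ' : (σ : ℚ) ≠ 0 := by exact_mod_cast hσ
    have h4 : (σ : ℚ) * t.num = ρ * t.den := by
      have : σ * t.num = ρ * t.den := by omega
      exact_mod_cast this
    have h5 : t = (ρ : ℚ) / σ := by
      rw [eq_div_iff hσ', ← t.num_div_den]
      field_simp
      linear_combination h4
    rw [h5]
    exact hg
  have l1 := hl ρ1 σ1 s1 g1
  have l2 := hl ρ2 σ2 s2 g2
  have l3 := hl ρ3 σ3 s3 g3
  obtain ⟨g, w1, w2, w3, hg, hw1, hw2, hw3, k, u, v, hu, hv, huv, htau, hP, hx, hy⟩ :=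
    three hα1 hα2 hα3 h1 h2 h3 t l1 l2 l3
  have h6M : 6 ∣ M := ⟨M1 * M2 * M3 * Pr, by rw [hM]; ring⟩
  have hαM : ∀ α : ℤ, α.natAbs ∣ Pr → α ∣ (M : ℤ) := by
    intro α h
    rw [Int.dvd_natCast]
    exact h.trans ⟨6 * M1 * M2 * M3, by rw [hM]; ring⟩
  have hgM : g ∣ M := hg.trans ⟨6 * M1 * M2 * M3, by rw [hM]; ring⟩
  have d1 : α1.natAbs ∣ Pr := by
    rw [hPr, Int.natAbs_mul, Int.natAbs_mul]
    exact ((Nat.dvd_mul_right _ _)).trans (Nat.dvd_mul_right _ _)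
  have d2 : α2.natAbs ∣ Pr := by
    rw [hPr, Int.natAbs_mul, Int.natAbs_mul]
    exact ((Nat.dvd_mul_left _ _)).trans (Nat.dvd_mul_right _ _)
  have d3 : α3.natAbs ∣ Pr := by
    rw [hPr, Int.natAbs_mul]
    exact Nat.dvd_mul_left _ _
  have hN : ∏ p ∈ (aeval t F / aeval t G).den.primeFactors.filter (fun p => 5 ≤ p), p ≤
      Cond6 a b := by
    rw [← hj]
    exact prod_le_cond hmin.1
  have pw1 : PowerProduct (n + (M + 1)) (M + Cond6 a b) w1.natAbs :=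
    pp_w hw1 h1 l1 h6M (hαM _ d1) hgM he1 hM0
      (fun p hp hpM hpL => p1 t ht p hp
        (fun h => hpM (h.trans ⟨6 * M2 * M3 * Pr, by rw [hM]; ring⟩)) hpL) hfew hN
  have pw2 : PowerProduct (n + (M + 1)) (M + Cond6 a b) w2.natAbs :=
    pp_w hw2 h2 l2 h6M (hαM _ d2) hgM he2 hM0
      (fun p hp hpM hpL => p2 t ht p hp
        (fun h => hpM (h.trans ⟨6 * M1 * M3 * Pr, by rw [hM]; ring⟩)) hpL) hfew hN
  have pw3 : PowerProduct (n + (M + 1)) (M + Cond6 a b) w3.natAbs :=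
    pp_w hw3 h3 l3 h6M (hαM _ d3) hgM he3 hM0
      (fun p hp hpM hpL => p3 t ht p hp
        (fun h => hpM (h.trans ⟨6 * M1 * M2 * Pr, by rw [hM]; ring⟩)) hpL) hfew hN
  obtain ⟨q1, q2, q3⟩ := hP _ pw1 pw2 pw3
  refine ⟨k, u, v, hu, hv, huv, htau, q1, q2, q3, ?_⟩
  -- the height of the invariant
  set H : ℕ := B.natAbs * (A0.natAbs * (u + v)) ^ m0 with hH
  have hHz : (H : ℤ) = B * (A0 * (u + v)) ^ m0 := by
    rw [hH]
    push_cast
    rw [abs_of_nonneg hB0, abs_of_nonneg hA00]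
  have hy' : |(t.den : ℤ)| ≤ A0 * (u + v) := by
    rw [Nat.abs_cast]
    exact hy
  have hFm : F.natDegree ≤ m0 := le_max_left _ _
  have hGm : G.natDegree ≤ m0 := le_max_right _ _
  have hy0 : (t.den : ℤ) ≠ 0 := by exact_mod_cast t.den_nz
  have htq : ((t.num : ℤ) : ℚ) / ((t.den : ℤ) : ℚ) = t := by
    rw [Int.cast_natCast]
    exact t.num_div_den
  have eF := hom_ev hFm t.num t.den hy0
  have eG := hom_ev hGm t.num t.den hy0
  rw [htq] at eF eG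
  push_cast at eF eG
  have hpow0 : (0 : ℤ) ≤ (A0 * (u + v)) ^ m0 := by positivity
  have bF : |hom F m0 t.num t.den| ≤ H := by
    rw [hHz]
    refine (hom_le F m0 t.num t.den (A0 * (u + v)) hx hy').trans ?_
    refine mul_le_mul_of_nonneg_right ?_ hpow0
    rw [hB]
    have : 0 ≤ ∑ i ∈ range (m0 + 1), |G.coeff i| := by positivity
    linarith
  have bG : |hom G m0 t.num t.den| ≤ H := by
    rw [hHz]
    refine (hom_le G m0 t.num t.den (A0 * (u + v)) hx hy').trans ?_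
    refine mul_le_mul_of_nonneg_right ?_ hpow0
    rw [hB]
    have : 0 ≤ ∑ i ∈ range (m0 + 1), |F.coeff i| := by positivity
    linarith
  have hGne : hom G m0 t.num t.den ≠ 0 := by
    intro h
    rw [h] at eG
    push_cast at eG
    exact (mul_ne_zero (pow_ne_zero _ hden) ht) eG.symm
  have hcross : (jInv a b).num * hom G m0 t.num t.den = hom F m0 t.num t.den * (jInv a b).den := by
    have h3 : jInv a b * (hom G m0 t.num t.den : ℤ) = (hom F m0 t.num t.den : ℤ) := by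
      rw [eF, eG, hj]
      field_simp
    have h4 : ((jInv a b).num : ℚ) = jInv a b * (jInv a b).den := (Rat.mul_den_eq_num _).symm
    have h5 : (((jInv a b).num * hom G m0 t.num t.den : ℤ) : ℚ) =
        ((hom F m0 t.num t.den * (jInv a b).den : ℤ) : ℚ) := by
      push_cast
      rw [h4, ← h3]
      ring
    exact_mod_cast h5
  have hcop : IsCoprime (jInv a b).num ((jInv a b).den : ℤ) :=
    Rat.isCoprime_num_den _
  have hnum0 : (jInv a b).num ≠ 0 := fun h => hj0 (Rat.num_eq_zero.1 h)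
  have hFne : hom F m0 t.num t.den ≠ 0 := by
    intro h
    rw [h, zero_mul] at hcross
    exact (mul_ne_zero hnum0 hGne) hcross
  have hdnum : (jInv a b).num ∣ hom F m0 t.num t.den :=
    hcop.dvd_of_dvd_mul_right ⟨_, hcross.symm⟩
  have hdden : ((jInv a b).den : ℤ) ∣ hom G m0 t.num t.den :=
    hcop.symm.dvd_of_dvd_mul_left ⟨hom F m0 t.num t.den, by rw [hcross]; ring⟩
  have hn1 : (jInv a b).num.natAbs ≤ H := by
    have h4 := Nat.le_of_dvd (Int.natAbs_pos.2 hFne) (Int.natAbs_dvd_natAbs.2 hdnum)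
    rw [Int.abs_eq_natAbs] at bF
    omega
  have hn2 : (jInv a b).den ≤ H := by
    have h4 := Nat.le_of_dvd (Int.natAbs_pos.2 hGne) (Int.natCast_dvd.1 hdden)
    rw [Int.abs_eq_natAbs] at bG
    omega
  refine (disc_le hmin hj0 hj1728 H hn1 hn2).trans ?_
  have hH18 : H ^ 18 = (B.natAbs * A0.natAbs ^ m0) ^ 18 * (u + v) ^ (18 * m0) := by
    rw [hH, mul_pow A0.natAbs (u + v) m0, mul_pow, mul_pow, mul_pow, ← pow_mul (u + v), mul_comm m0,
      mul_assoc]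
  rw [hH18]
  calc 108 * 1728 * 6 ^ 6 * 1729 ^ 9 * ((B.natAbs * A0.natAbs ^ m0) ^ 18 * (u + v) ^ (18 * m0) *
        Cond6 a b ^ 6) =
      108 * 1728 * 6 ^ 6 * 1729 ^ 9 * (B.natAbs * A0.natAbs ^ m0) ^ 18 *
        ((u + v) ^ (18 * m0) * Cond6 a b ^ 6) := by ring
    _ ≤ _ := Nat.mul_le_mul_right _ (Nat.le_succ _)

open Pool.Agent.Results.MP_2ec8a3_nt.FewPowersAllHeights in
theorem triples_iff {N X K u v : ℕ} : (u, v) ∈ Triples N X K ↔ 0 < u ∧ 0 < v ∧ u.Coprime v ∧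
    PowerProduct N X u ∧ PowerProduct N X v ∧ PowerProduct N X (u + v) ∧ X ^ K ≤ u + v := Iff.rfl

theorem log_bound (ε : ℝ) (hε : 0 < ε) : ∃ C : ℝ, 0 < C ∧ ∀ X : ℕ, 1 ≤ X →
    ((Nat.log 2 X : ℝ) + 1) ≤ C * (X : ℝ) ^ ε := by
  refine ⟨1 / ε / Real.log 2 + 1, by positivity, fun X hX => ?_⟩
  have hX' : (1 : ℝ) ≤ X := by exact_mod_cast hX
  have h1 : (Nat.log 2 X : ℝ) ≤ Real.logb 2 X := by
    have := Real.natLog_le_logb X 2
    exact_mod_cast this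
  have h2 : Real.logb 2 X ≤ 1 / ε / Real.log 2 * (X : ℝ) ^ ε := by
    rw [Real.logb, div_le_iff₀ (Real.log_pos one_lt_two)]
    have h3 := Real.log_le_rpow_div (by positivity : (0 : ℝ) ≤ X) hε
    have h4 : Real.log 2 ≠ 0 := (Real.log_pos one_lt_two).ne'
    calc Real.log X ≤ (X : ℝ) ^ ε / ε := h3
      _ = 1 / ε / Real.log 2 * (X : ℝ) ^ ε * Real.log 2 := by
        field_simp
  have h5 : (1 : ℝ) ≤ (X : ℝ) ^ ε := Real.one_le_rpow hX' hε.le
  linarith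

open Pool.Agent.Results.MP_2ec8a3_nt.FewPowersAllHeights in
theorem affine {F G : ℤ[X]} (hG : G ≠ 0) (r : Fin 3 → ℚ) (hr : Function.Injective r)
    (g0 : ∀ i, aeval (r i) G = 0) (f0 : ∀ i, aeval (r i) F ≠ 0) (n : ℕ) {ε : ℝ} (hε : 0 < ε) :
    ∃ (κ : ℕ) (C : ℝ), 0 < C ∧ ∀ X : ℕ, 1 ≤ X →
      {j : ℚ | (∃ t : ℚ, aeval t G ≠ 0 ∧ j = aeval t F / aeval t G) ∧ Few n j ∧ Bad κ X j}.Finite ∧
      (({j : ℚ | (∃ t : ℚ, aeval t G ≠ 0 ∧ j = aeval t F / aeval t G) ∧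
        Few n j ∧ Bad κ X j}.ncard : ℕ) : ℝ) ≤ C * (X : ℝ) ^ ε := by
  classical
  have hdd : ∀ i, ((r i).den : ℤ) ≠ 0 := fun i => by exact_mod_cast (r i).den_nz
  have hne : ∀ i j, i ≠ j → ((r i).den : ℤ) * (r j).num - (r j).den * (r i).num ≠ 0 := by
    intro i j hij h
    apply hij
    apply hr
    rw [Rat.eq_iff_mul_eq_mul]
    linarith
  have hq : ∀ i, (((r i).num : ℤ) : ℚ) / (((r i).den : ℤ) : ℚ) = r i := fun i => by
    rw [Int.cast_natCast]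
    exact (r i).num_div_den
  obtain ⟨τ, M, m, A, hM, hA, hone⟩ := one (F := F) (G := G) hG (hdd 0) (hdd 1) (hdd 2)
    (hne 1 2 (by decide)) (hne 2 0 (by decide)) (hne 0 1 (by decide)) (by rw [hq]; exact g0 0)
    (by rw [hq]; exact g0 1) (by rw [hq]; exact g0 2) (by rw [hq]; exact f0 0)
    (by rw [hq]; exact f0 1) (by rw [hq]; exact f0 2) n
  obtain ⟨K, hK⟩ := result (n + (M + 1)) (ε / 2) (by positivity)
  obtain ⟨C1, hC1, hlog⟩ := log_bound (ε / 2) (by positivity)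
  set C3 : ℕ := A * (M + 2) ^ (K * m) with hC3
  set T : ℕ := ((M + 2) * C3) ^ K with hT
  set ψ : Fin 3 × (ℕ × ℕ) → ℚ := fun q => aeval (τ q) F / aeval (τ q) G with hψ
  refine ⟨K * m + 7, 2 + 3 * ((T + 1) * (T + 1)) + 3 * C1 * ((M : ℝ) + 2) ^ (ε / 2), by positivity,
    fun X hX => ?_⟩
  set S : Finset ℚ := ({0, 1728} ∪
    ((univ : Finset (Fin 3)) ×ˢ (range (T + 1) ×ˢ range (T + 1))).image ψ) ∪
    (range (Nat.log 2 X + 1)).biUnion (fun i => ((univ : Finset (Fin 3)) ×ˢ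
      (hK (M + 2 ^ (i + 1))).1.toFinset).image ψ) with hS
  have hsub : {j : ℚ | (∃ t : ℚ, aeval t G ≠ 0 ∧ j = aeval t F / aeval t G) ∧
      Few n j ∧ Bad (K * m + 7) X j} ⊆ (S : Set ℚ) := by
    rintro j ⟨⟨t, ht, hjt⟩, hfew, a, b, hmin, hj, hNX, hbad⟩
    rw [mem_coe, hS, mem_union, mem_union]
    by_cases hj0 : jInv a b = 0
    · left; left
      rw [← hj, hj0]
      simp
    by_cases hj1 : jInv a b = 1728
    · left; left
      rw [← hj, hj1]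
      simp
    obtain ⟨k, u, v, hu, hv, huv, hτ, q1, q2, q3, hD⟩ :=
      hone t ht (hjt ▸ hfew) a b hmin (hj.trans hjt) hj0 hj1
    set N := Cond6 a b with hN
    have hNpos : 0 < N := cond_pos a b
    have hψj : ψ (k, (u, v)) = j := by
      rw [hψ]
      simp only
      rw [← hτ, hjt]
    have hlogN : 2 ^ Nat.log 2 N ≤ N := Nat.pow_log_le_self 2 hNpos.ne'
    have hlogN' : N < 2 ^ (Nat.log 2 N + 1) := Nat.lt_pow_succ_log_self one_lt_two N
    set i := Nat.log 2 N with hi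
    have hZ : M + N ≤ M + 2 ^ (i + 1) := by omega
    have hZ2 : M + 2 ^ (i + 1) ≤ (M + 2) * N := by
      rw [pow_succ]
      nlinarith
    by_cases hc : (M + 2 ^ (i + 1)) ^ K ≤ u + v
    · right
      rw [mem_biUnion]
      refine ⟨i, ?_, ?_⟩
      · rw [mem_range]
        exact Nat.lt_succ_of_le (Nat.log_mono_right hNX)
      · rw [mem_image]
        refine ⟨(k, (u, v)), ?_, hψj⟩
        rw [mem_product]
        refine ⟨mem_univ _, ?_⟩
        rw [Set.Finite.mem_toFinset]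
        exact triples_iff.2 ⟨hu, hv, huv, pp_mono hZ q1, pp_mono hZ q2, pp_mono hZ q3, hc⟩
    · left; right
      have h1 : u + v ≤ ((M + 2) * N) ^ K := by
        refine (not_le.1 hc).le.trans ?_
        exact Nat.pow_le_pow_left hZ2 K
      have hNC : N < C3 := by
        have h2 : N ^ (K * m + 7) < A * ((((M + 2) * N) ^ K) ^ m * N ^ 6) := by
          refine hbad.trans_le (hD.trans ?_)
          exact Nat.mul_le_mul_left _ (Nat.mul_le_mul_right _ (Nat.pow_le_pow_left h1 m))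
        have h3 : A * ((((M + 2) * N) ^ K) ^ m * N ^ 6) = C3 * N ^ (K * m + 6) := by
          rw [hC3, ← pow_mul, mul_pow, pow_add]
          ring
        have h4 : N ^ (K * m + 7) = N * N ^ (K * m + 6) := by
          rw [← pow_succ']
        rw [h3, h4] at h2
        exact lt_of_mul_lt_mul_right h2 (Nat.zero_le _)
      have h5 : u + v ≤ T := by
        refine h1.trans ?_
        rw [hT]
        exact Nat.pow_le_pow_left (Nat.mul_le_mul_left _ hNC.le) K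
      rw [mem_image]
      refine ⟨(k, (u, v)), ?_, hψj⟩
      rw [mem_product, mem_product, mem_range, mem_range]
      exact ⟨mem_univ _, by simp only; omega, by simp only; omega⟩
  refine ⟨S.finite_toSet.subset hsub, ?_⟩
  have h1 : ({j : ℚ | (∃ t : ℚ, aeval t G ≠ 0 ∧ j = aeval t F / aeval t G) ∧
      Few n j ∧ Bad (K * m + 7) X j}.ncard : ℝ) ≤ (S.card : ℝ) := by
    have := Set.ncard_le_ncard hsub S.finite_toSet
    rw [Set.ncard_coe_finset] at this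
    exact_mod_cast this
  refine h1.trans ?_
  have hX' : (1 : ℝ) ≤ X := by exact_mod_cast hX
  have hXpos : (0 : ℝ) < X := by linarith
  have h2 : (S.card : ℝ) ≤ (2 + 3 * ((T + 1) * (T + 1))) +
      ∑ i ∈ range (Nat.log 2 X + 1), 3 * (((hK (M + 2 ^ (i + 1))).1.toFinset.card : ℕ) : ℝ) := by
    have h3 : S.card ≤ (2 + 3 * ((T + 1) * (T + 1))) +
        ∑ i ∈ range (Nat.log 2 X + 1), 3 * (hK (M + 2 ^ (i + 1))).1.toFinset.card := by
      rw [hS]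
      refine (card_union_le _ _).trans (add_le_add ((card_union_le _ _).trans (add_le_add ?_ ?_)) ?_)
      · exact card_le_two
      · refine card_image_le.trans (le_of_eq ?_)
        rw [card_product, card_product, card_range, card_univ, Fintype.card_fin]
      · refine card_biUnion_le.trans (sum_le_sum fun i _ => card_image_le.trans (le_of_eq ?_))
        rw [card_product, card_univ, Fintype.card_fin]
    exact_mod_cast h3
  refine h2.trans ?_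
  have h4 : ∀ i ∈ range (Nat.log 2 X + 1),
      3 * (((hK (M + 2 ^ (i + 1))).1.toFinset.card : ℕ) : ℝ) ≤
        3 * (((M : ℝ) + 2) ^ (ε / 2) * (X : ℝ) ^ (ε / 2)) := by
    intro i hi
    have h5 := (hK (M + 2 ^ (i + 1))).2
    rw [Set.ncard_eq_toFinset_card _ (hK (M + 2 ^ (i + 1))).1] at h5
    have h6 : ((M + 2 ^ (i + 1) : ℕ) : ℝ) ≤ ((M : ℝ) + 2) * X := by
      have h7 : 2 ^ i ≤ X := by
        refine (Nat.pow_le_pow_right (by norm_num) (Nat.lt_succ_iff.1 (mem_range.1 hi))).trans ?_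
        exact Nat.pow_log_le_self 2 (by omega)
      have h8 : M + 2 ^ (i + 1) ≤ (M + 2) * X := by
        rw [pow_succ]
        nlinarith
      exact_mod_cast h8
    have h9 : ((M + 2 ^ (i + 1) : ℕ) : ℝ) ^ (ε / 2) ≤
        ((M : ℝ) + 2) ^ (ε / 2) * (X : ℝ) ^ (ε / 2) := by
      rw [← Real.mul_rpow (by positivity) (by positivity)]
      exact Real.rpow_le_rpow (by positivity) h6 (by positivity)
    linarith
  have h5 := sum_le_sum h4
  rw [sum_const, card_range, nsmul_eq_mul] at h5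
  push_cast at h5
  have h6 := hlog X hX
  have h7 : (X : ℝ) ^ (ε / 2) * (X : ℝ) ^ (ε / 2) = (X : ℝ) ^ ε := by
    rw [← Real.rpow_add hXpos]
    congr 1
    ring
  have h8 : (1 : ℝ) ≤ (X : ℝ) ^ ε := Real.one_le_rpow hX' hε.le
  have h9 : ((Nat.log 2 X : ℝ) + 1) * (3 * (((M : ℝ) + 2) ^ (ε / 2) * (X : ℝ) ^ (ε / 2))) ≤
      3 * C1 * ((M : ℝ) + 2) ^ (ε / 2) * (X : ℝ) ^ ε := by
    calc ((Nat.log 2 X : ℝ) + 1) * (3 * (((M : ℝ) + 2) ^ (ε / 2) * (X : ℝ) ^ (ε / 2))) ≤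
        (C1 * (X : ℝ) ^ (ε / 2)) * (3 * (((M : ℝ) + 2) ^ (ε / 2) * (X : ℝ) ^ (ε / 2))) :=
          mul_le_mul_of_nonneg_right h6 (by positivity)
      _ = 3 * C1 * ((M : ℝ) + 2) ^ (ε / 2) * ((X : ℝ) ^ (ε / 2) * (X : ℝ) ^ (ε / 2)) := by ring
      _ = _ := by rw [h7]
  have h10 : (0 : ℝ) ≤ 2 + 3 * (((T : ℝ) + 1) * (T + 1)) := by positivity
  have h11 : (2 + 3 * (((T : ℝ) + 1) * (T + 1))) ≤ (2 + 3 * (((T : ℝ) + 1) * (T + 1))) * (X : ℝ) ^ ε :=
    le_mul_of_one_le_right h10 h8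
  calc _ ≤ (2 + 3 * (((T : ℝ) + 1) * (T + 1))) * (X : ℝ) ^ ε +
        3 * C1 * ((M : ℝ) + 2) ^ (ε / 2) * (X : ℝ) ^ ε := add_le_add h11 (h5.trans h9)
    _ = _ := by ring

end Pool.Agent.X286.Sz
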