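import Pool.Agent.X286.Sz.Pow
import Pool.Agent.X286.Sz.Hom

/-!
# The three poles
-/

set_option autoImplicit false

namespace Pool.Agent.X286.Sz

open Finset Polynomial

theorem pp_w {j : ℚ} {w L α : ℤ} {g M e n N : ℕ} (hw : α * L = g * w) (hα0 : α ≠ 0) (hL : L ≠ 0)
    (h6 : 6 ∣ M) (hα : α ∣ (M : ℤ)) (hg : g ∣ M) (he : 0 < e) (hM : 0 < M)
    (hpole : ∀ p : ℕ, p.Prime → ¬ p ∣ M → (p : ℤ) ∣ L →
      j.den.factorization p = e * L.natAbs.factorization p)
    (hn : (j.den.primeFactors.image j.den.factorization).card ≤ n)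
    (hN : ∏ p ∈ j.den.primeFactors.filter (fun p => 5 ≤ p), p ≤ N) :
    PowerProduct (n + (M + 1)) (M + N) w.natAbs := by
  classical
  have hw0 : w ≠ 0 := by
    rintro rfl
    rw [mul_zero] at hw
    exact (mul_ne_zero hα0 hL) hw
  have hg0 : g ≠ 0 := by
    rintro rfl
    simp only [Nat.cast_zero, zero_mul] at hw
    exact (mul_ne_zero hα0 hL) hw
  have key : ∀ p ∈ prs M w.natAbs, p.Prime ∧ ¬ p ∣ M ∧
      j.den.factorization p = e * w.natAbs.factorization p ∧ 0 < w.natAbs.factorization p := by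
    intro p hp
    rw [prs, mem_filter, Nat.mem_primeFactors] at hp
    obtain ⟨⟨hpp, hpw, _⟩, hpM⟩ := hp
    have hpi : Prime (p : ℤ) := Nat.prime_iff_prime_int.1 hpp
    have hpα : ¬ (p : ℤ) ∣ α := fun h => hpM (Int.natCast_dvd_natCast.1 (h.trans hα))
    have hpg : ¬ p ∣ g := fun h => hpM (h.trans hg)
    have hpL : (p : ℤ) ∣ L := by
      have h1 : (p : ℤ) ∣ α * L := by
        rw [hw]
        exact Dvd.dvd.mul_left (Int.natCast_dvd.2 hpw) _
      exact (hpi.dvd_or_dvd h1).resolve_left hpα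
    have hv : L.natAbs.factorization p = w.natAbs.factorization p := by
      have h1 := congrArg (fun z : ℤ => z.natAbs.factorization p) hw
      simp only [Int.natAbs_mul, Int.natAbs_natCast] at h1
      rw [Nat.factorization_mul (Int.natAbs_ne_zero.2 hα0) (Int.natAbs_ne_zero.2 hL),
        Nat.factorization_mul hg0 (Int.natAbs_ne_zero.2 hw0)] at h1
      simp only [Finsupp.add_apply] at h1
      rw [Nat.factorization_eq_zero_of_not_dvd (fun h => hpα (Int.natCast_dvd.2 h)),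
        Nat.factorization_eq_zero_of_not_dvd hpg, zero_add, zero_add] at h1
      exact h1
    refine ⟨hpp, hpM, ?_, hpp.factorization_pos_of_dvd (Int.natAbs_ne_zero.2 hw0) hpw⟩
    rw [hpole p hpp hpM hpL, hv]
  have key2 : ∀ p ∈ prs M w.natAbs, p ∈ j.den.primeFactors := by
    intro p hp
    obtain ⟨hpp, _, h1, h2⟩ := key p hp
    have : 0 < j.den.factorization p := by
      rw [h1]
      exact Nat.mul_pos he h2
    rw [Nat.mem_primeFactors]
    exact ⟨hpp, Nat.dvd_of_factorization_pos this.ne', j.den_nz⟩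
  refine pp_of (Int.natAbs_ne_zero.2 hw0) hM ?_ ?_ (Nat.le_add_right _ _)
  · refine le_trans ?_ hn
    refine card_le_card_of_injOn (fun v => e * v) ?_ ?_
    · intro v hv
      rw [mem_coe, mem_image] at hv
      obtain ⟨p, hp, rfl⟩ := hv
      rw [mem_coe, mem_image]
      exact ⟨p, key2 p hp, (key p hp).2.2.1⟩
    · intro v _ v' _ h
      exact Nat.eq_of_mul_eq_mul_left he h
  · refine le_trans ?_ (hN.trans (Nat.le_add_left _ _))
    refine prod_le_prod_of_subset_of_one_le' ?_ ?_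
    · intro p hp
      rw [mem_filter]
      refine ⟨key2 p hp, ?_⟩
      obtain ⟨hpp, hpM, _, _⟩ := key p hp
      by_contra h5
      have : p < 5 := by omega
      interval_cases p
      · exact absurd hpp (by norm_num)
      · exact absurd hpp (by norm_num)
      · exact hpM ((by norm_num : 2 ∣ 6).trans h6)
      · exact hpM ((by norm_num : 3 ∣ 6).trans h6)
      · exact absurd hpp (by norm_num)
    · intro p hp _
      exact (Nat.prime_of_mem_primeFactors (mem_filter.1 hp).1).one_lt.le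

/-- the ratio of the first two members -/
def zeta (k : Fin 3) (q : ℕ × ℕ) : ℚ :=
  ![(q.1 : ℚ) / q.2, -((q.1 : ℚ) / (q.1 + q.2)), -(((q.1 : ℚ) + q.2) / q.1)] k

/-- the parameter with a given ratio -/
def tau (α1 α2 ρ1 σ1 ρ2 σ2 : ℤ) (k : Fin 3) (q : ℕ × ℕ) : ℚ :=
  (α1 * ρ1 - zeta k q * α2 * ρ2) / (α1 * σ1 - zeta k q * α2 * σ2)

theorem three {ρ1 σ1 ρ2 σ2 ρ3 σ3 α1 α2 α3 : ℤ} (e1 : α1 = σ2 * ρ3 - σ3 * ρ2)
    (e2 : α2 = σ3 * ρ1 - σ1 * ρ3) (e3 : α3 = σ1 * ρ2 - σ2 * ρ1) (h1 : α1 ≠ 0) (h2 : α2 ≠ 0)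
    (h3 : α3 ≠ 0) (t : ℚ) (l1 : σ1 * t.num - ρ1 * t.den ≠ 0) (l2 : σ2 * t.num - ρ2 * t.den ≠ 0)
    (l3 : σ3 * t.num - ρ3 * t.den ≠ 0) :
    ∃ (g : ℕ) (w1 w2 w3 : ℤ), g ∣ (α1 * α2 * α3).natAbs ∧
      α1 * (σ1 * t.num - ρ1 * t.den) = g * w1 ∧ α2 * (σ2 * t.num - ρ2 * t.den) = g * w2 ∧
      α3 * (σ3 * t.num - ρ3 * t.den) = g * w3 ∧
      ∃ (k : Fin 3) (u v : ℕ), 0 < u ∧ 0 < v ∧ u.Coprime v ∧
        t = tau α1 α2 ρ1 σ1 ρ2 σ2 k (u, v) ∧
        (∀ P : ℕ → Prop, P w1.natAbs → P w2.natAbs → P w3.natAbs → P u ∧ P v ∧ P (u + v)) ∧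
        |t.num| ≤ ((|ρ2 * α2| + |ρ1 * α1|) * |α1 * α2 * α3| + (|σ2 * α2| + |σ1 * α1|) *
          |α1 * α2 * α3|) * (u + v) ∧
        (t.den : ℤ) ≤ ((|ρ2 * α2| + |ρ1 * α1|) * |α1 * α2 * α3| + (|σ2 * α2| + |σ1 * α1|) *
          |α1 * α2 * α3|) * (u + v) := by
  set x := t.num with hx
  set y : ℤ := (t.den : ℤ) with hy
  set z1 := α1 * (σ1 * x - ρ1 * y) with hz1
  set z2 := α2 * (σ2 * x - ρ2 * y) with hz2
  set z3 := α3 * (σ3 * x - ρ3 * y) with hz3
  have z10 : z1 ≠ 0 := mul_ne_zero h1 l1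
  have z20 : z2 ≠ 0 := mul_ne_zero h2 l2
  have z30 : z3 ≠ 0 := mul_ne_zero h3 l3
  have hsum : z1 + z2 + z3 = 0 := by
    rw [hz1, hz2, hz3, e1, e2, e3]
    ring
  set g := Int.gcd z1 z2 with hg
  have hgpos : 0 < g := Int.gcd_pos_of_ne_zero_left _ z10
  have hg1 : (g : ℤ) ∣ z1 := Int.gcd_dvd_left ..
  have hg2 : (g : ℤ) ∣ z2 := Int.gcd_dvd_right ..
  obtain ⟨w1, hw1⟩ := hg1
  obtain ⟨w2, hw2⟩ := hg2
  have hgz : (g : ℤ) ≠ 0 := by exact_mod_cast hgpos.ne'
  have hcop : Int.gcd w1 w2 = 1 := by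
    have := Int.gcd_mul_left (g : ℤ) w1 w2
    rw [← hw1, ← hw2, ← hg, Int.natAbs_natCast] at this
    exact (Nat.eq_of_mul_eq_mul_left hgpos (by rw [mul_one]; exact this)).symm
  have hy1 : σ2 * α2 * z1 - σ1 * α1 * z2 = α1 * α2 * α3 * y := by
    rw [hz1, hz2, e3]
    ring
  have hx1 : ρ2 * α2 * z1 - ρ1 * α1 * z2 = α1 * α2 * α3 * x := by
    rw [hz1, hz2, e3]
    ring
  have hgy : (g : ℤ) ∣ α1 * α2 * α3 * y := by
    rw [← hy1, hw1, hw2]
    exact ⟨σ2 * α2 * w1 - σ1 * α1 * w2, by ring⟩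
  have hgx : (g : ℤ) ∣ α1 * α2 * α3 * x := by
    rw [← hx1, hw1, hw2]
    exact ⟨ρ2 * α2 * w1 - ρ1 * α1 * w2, by ring⟩
  have hgP : g ∣ (α1 * α2 * α3).natAbs := by
    have hxy : Int.gcd x y = 1 := by
      rw [hx, hy, Int.gcd, Int.natAbs_natCast]
      exact t.reduced
    have h4 : (g : ℤ) ∣ (Int.gcd (α1 * α2 * α3 * x) (α1 * α2 * α3 * y) : ℤ) :=
      Int.dvd_coe_gcd hgx hgy
    rw [Int.gcd_mul_left, hxy, mul_one] at h4
    exact Int.natCast_dvd_natCast.1 h4
  have hw3 : z3 = g * (-w1 - w2) := by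
    have : z3 = -z1 - z2 := by linarith
    rw [this, hw1, hw2]
    ring
  have w10 : w1 ≠ 0 := by
    rintro rfl
    rw [mul_zero] at hw1
    exact z10 hw1
  have w20 : w2 ≠ 0 := by
    rintro rfl
    rw [mul_zero] at hw2
    exact z20 hw2
  have w30 : -w1 - w2 ≠ 0 := by
    intro h
    rw [h, mul_zero] at hw3
    exact z30 hw3
  refine ⟨g, w1, w2, -w1 - w2, hgP, hw1, hw2, hw3, ?_⟩
  -- the parameter in terms of the ratio
  have hyq : (y : ℚ) ≠ 0 := by
    rw [hy]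
    exact_mod_cast t.den_nz
  have hxt : (x : ℚ) = t * y := by
    rw [hx, hy]
    push_cast
    exact (Rat.mul_den_eq_num t).symm
  have hgq : (g : ℚ) ≠ 0 := by exact_mod_cast hgpos.ne'
  have htau : ∀ (k : Fin 3) (q : ℕ × ℕ), zeta k q ≠ 0 → (w1 : ℚ) = zeta k q * w2 →
      t = tau α1 α2 ρ1 σ1 ρ2 σ2 k q := by
    intro k q hq hk
    have h4 : (z1 : ℚ) = zeta k q * z2 := by
      rw [hw1, hw2]
      push_cast
      rw [hk]
      ring
    have h5 : (α1 : ℚ) * (σ1 * t - ρ1) = zeta k q * (α2 * (σ2 * t - ρ2)) := by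
      have h6 : (y : ℚ) * (α1 * (σ1 * t - ρ1)) = y * (zeta k q * (α2 * (σ2 * t - ρ2))) := by
        rw [hz1, hz2] at h4
        push_cast at h4
        rw [hxt] at h4
        linear_combination h4
      exact mul_left_cancel₀ hyq h6
    have h7 : (α1 : ℚ) * σ1 - zeta k q * α2 * σ2 ≠ 0 := by
      intro h8
      have h9 : (α1 : ℚ) * ρ1 - zeta k q * α2 * ρ2 = 0 := by
        linear_combination t * h8 - h5
      have h10 : zeta k q * (α1 * α2 * α3 : ℤ) = 0 := by
        rw [e3]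
        push_cast
        linear_combination (α2 * ρ2 : ℚ) * zeta k q * h8 - (α2 * σ2 : ℚ) * zeta k q * h9
      rcases mul_eq_zero.1 h10 with h11 | h11
      · exact hq h11
      · exact (mul_ne_zero (mul_ne_zero h1 h2) h3) (by exact_mod_cast h11)
    rw [tau, eq_div_iff h7]
    linear_combination h5
  -- the height
  have hht : ∀ u v : ℕ, |w1| ≤ (u + v : ℤ) → |w2| ≤ (u + v : ℤ) →
      |x| ≤ ((|ρ2 * α2| + |ρ1 * α1|) * |α1 * α2 * α3| + (|σ2 * α2| + |σ1 * α1|) *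
          |α1 * α2 * α3|) * (u + v) ∧
        y ≤ ((|ρ2 * α2| + |ρ1 * α1|) * |α1 * α2 * α3| + (|σ2 * α2| + |σ1 * α1|) *
          |α1 * α2 * α3|) * (u + v) := by
    intro u v hu hv
    have hP0 : 1 ≤ |α1 * α2 * α3| :=
      Int.one_le_abs (mul_ne_zero (mul_ne_zero h1 h2) h3)
    have hgP' : (g : ℤ) ≤ |α1 * α2 * α3| := by
      rw [Int.abs_eq_natAbs]
      exact_mod_cast Nat.le_of_dvd
        (Int.natAbs_pos.2 (mul_ne_zero (mul_ne_zero h1 h2) h3)) hgP
    have hg0 : (0 : ℤ) ≤ g := by positivity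
    have hgen : ∀ c1 c2 s : ℤ, c1 * z1 - c2 * z2 = α1 * α2 * α3 * s →
        |s| ≤ (|c1| + |c2|) * |α1 * α2 * α3| * (u + v) := by
      intro c1 c2 s hs
      have h4 : |s| ≤ |α1 * α2 * α3 * s| := by
        rw [abs_mul]
        nlinarith [abs_nonneg s]
      refine h4.trans ?_
      rw [← hs, hw1, hw2]
      have h5 : |c1 * (g * w1) - c2 * (g * w2)| ≤ |c1| * (g * |w1|) + |c2| * (g * |w2|) := by
        refine (abs_sub _ _).trans ?_
        rw [abs_mul, abs_mul, abs_mul, abs_mul, Nat.abs_cast]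
      refine h5.trans ?_
      have h6 : (g : ℤ) * |w1| ≤ |α1 * α2 * α3| * (u + v) :=
        mul_le_mul hgP' hu (abs_nonneg _) (abs_nonneg _)
      have h7 : (g : ℤ) * |w2| ≤ |α1 * α2 * α3| * (u + v) :=
        mul_le_mul hgP' hv (abs_nonneg _) (abs_nonneg _)
      calc |c1| * (g * |w1|) + |c2| * (g * |w2|) ≤
          |c1| * (|α1 * α2 * α3| * (u + v)) + |c2| * (|α1 * α2 * α3| * (u + v)) :=
            add_le_add (mul_le_mul_of_nonneg_left h6 (abs_nonneg _))
              (mul_le_mul_of_nonneg_left h7 (abs_nonneg _))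
        _ = (|c1| + |c2|) * |α1 * α2 * α3| * (u + v) := by ring
    have hx2 := hgen _ _ _ hx1
    have hy2 := hgen _ _ _ hy1
    have huv : (0 : ℤ) ≤ u + v := by positivity
    have A0 : 0 ≤ (|ρ2 * α2| + |ρ1 * α1|) * |α1 * α2 * α3| * (u + v) := by positivity
    have B0 : 0 ≤ (|σ2 * α2| + |σ1 * α1|) * |α1 * α2 * α3| * (u + v) := by positivity
    constructor
    · rw [add_mul]
      linarith
    · rw [add_mul]
      linarith [le_abs_self y]
  -- the signs
  have hcop' : w1.natAbs.Coprime w2.natAbs := hcop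
  have hcop13 : w1.natAbs.Coprime (-w1 - w2).natAbs := by
    have h4 : IsCoprime w1 w2 := Int.isCoprime_iff_gcd_eq_one.2 hcop
    have h5 : IsCoprime w1 (-w1 - w2) := by
      have h6 : IsCoprime w1 (-w2 + w1 * (-1)) := (h4.neg_right).add_mul_left_right (-1)
      have h7 : -w2 + w1 * (-1) = -w1 - w2 := by ring
      rwa [h7] at h6
    exact Int.isCoprime_iff_gcd_eq_one.1 h5
  have hcop23 : w2.natAbs.Coprime (-w1 - w2).natAbs := by
    have h4 : IsCoprime w2 w1 := (Int.isCoprime_iff_gcd_eq_one.2 hcop).symm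
    have h5 : IsCoprime w2 (-w1 - w2) := by
      have h6 : IsCoprime w2 (-w1 + w2 * (-1)) := (h4.neg_right).add_mul_left_right (-1)
      have h7 : -w1 + w2 * (-1) = -w1 - w2 := by ring
      rwa [h7] at h6
    exact Int.isCoprime_iff_gcd_eq_one.1 h5
  have w1q : (w1 : ℚ) ≠ 0 := by exact_mod_cast w10
  have w2q : (w2 : ℚ) ≠ 0 := by exact_mod_cast w20
  have w3q : (w1 : ℚ) + w2 ≠ 0 := by
    intro h
    apply w30
    have : w1 + w2 = 0 := by exact_mod_cast h
    omega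
  have castabs : ∀ w : ℤ, ((w.natAbs : ℕ) : ℚ) = |(w : ℚ)| := fun w => by
    rw [Nat.cast_natAbs, Int.cast_abs]
  by_cases c1 : 0 < w1 ∧ 0 < w2 ∨ w1 < 0 ∧ w2 < 0
  · -- `w1`, `w2` of the same sign
    refine ⟨0, w1.natAbs, w2.natAbs, Int.natAbs_pos.2 w10, Int.natAbs_pos.2 w20, hcop',
      htau _ _ ?_ ?_, ?_, ?_⟩
    · simp only [zeta, Matrix.cons_val_zero, castabs]
      exact div_ne_zero (abs_ne_zero.2 w1q) (abs_ne_zero.2 w2q)
    · simp only [zeta, Matrix.cons_val_zero, castabs]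
      rcases c1 with ⟨a1, a2⟩ | ⟨a1, a2⟩
      · have a1' : (0 : ℚ) < w1 := by exact_mod_cast a1
        have a2' : (0 : ℚ) < w2 := by exact_mod_cast a2
        rw [abs_of_pos a1', abs_of_pos a2']
        field_simp
      · have a1' : (w1 : ℚ) < 0 := by exact_mod_cast a1
        have a2' : (w2 : ℚ) < 0 := by exact_mod_cast a2
        rw [abs_of_neg a1', abs_of_neg a2']
        field_simp
    · intro P p1 p2 p3
      refine ⟨p1, p2, ?_⟩
      have : w1.natAbs + w2.natAbs = (-w1 - w2).natAbs := by omega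
      rwa [this]
    · apply hht
      · rw [Int.abs_eq_natAbs]
        omega
      · rw [Int.abs_eq_natAbs]
        omega
  by_cases c2 : 0 < w1 ∧ w1 + w2 < 0 ∨ w1 < 0 ∧ 0 < w1 + w2
  · -- `w1`, `w3` of the same sign
    have huv : w1.natAbs + (-w1 - w2).natAbs = w2.natAbs := by omega
    have huvq : ((w1.natAbs : ℕ) : ℚ) + ((-w1 - w2).natAbs : ℕ) = |(w2 : ℚ)| := by
      rw [← castabs w2, ← huv]
      push_cast
      ring
    refine ⟨1, w1.natAbs, (-w1 - w2).natAbs, Int.natAbs_pos.2 w10, Int.natAbs_pos.2 w30, hcop13,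
      htau _ _ ?_ ?_, ?_, ?_⟩
    · simp only [zeta, Matrix.cons_val_one, Matrix.cons_val_zero]
      rw [huvq, castabs]
      exact neg_ne_zero.2 (div_ne_zero (abs_ne_zero.2 w1q) (abs_ne_zero.2 w2q))
    · simp only [zeta, Matrix.cons_val_one, Matrix.cons_val_zero]
      rw [huvq, castabs]
      rcases c2 with ⟨a1, a2⟩ | ⟨a1, a2⟩
      · have a1' : (0 : ℚ) < w1 := by exact_mod_cast a1
        have a2' : (w2 : ℚ) < 0 := by exact_mod_cast (by omega : w2 < 0)
        rw [abs_of_pos a1', abs_of_neg a2']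
        field_simp
      · have a1' : (w1 : ℚ) < 0 := by exact_mod_cast a1
        have a2' : (0 : ℚ) < w2 := by exact_mod_cast (by omega : 0 < w2)
        rw [abs_of_neg a1', abs_of_pos a2']
        field_simp
    · intro P p1 p2 p3
      refine ⟨p1, p3, ?_⟩
      rwa [huv]
    · apply hht
      · rw [Int.abs_eq_natAbs]
        omega
      · rw [Int.abs_eq_natAbs]
        omega
  · -- `w2`, `w3` of the same sign
    have huv : w2.natAbs + (-w1 - w2).natAbs = w1.natAbs := by omega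
    have huvq : ((w2.natAbs : ℕ) : ℚ) + ((-w1 - w2).natAbs : ℕ) = |(w1 : ℚ)| := by
      rw [← castabs w1, ← huv]
      push_cast
      ring
    refine ⟨2, w2.natAbs, (-w1 - w2).natAbs, Int.natAbs_pos.2 w20, Int.natAbs_pos.2 w30, hcop23,
      htau _ _ ?_ ?_, ?_, ?_⟩
    · simp only [zeta, Matrix.cons_val_two, Matrix.tail_cons, Matrix.head_cons]
      rw [huvq, castabs]
      exact neg_ne_zero.2 (div_ne_zero (abs_ne_zero.2 w1q) (abs_ne_zero.2 w2q))
    · simp only [zeta, Matrix.cons_val_two, Matrix.tail_cons, Matrix.head_cons]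
      rw [huvq, castabs]
      rcases lt_or_gt_of_ne w10 with a1 | a1
      · have a1' : (w1 : ℚ) < 0 := by exact_mod_cast a1
        have a2' : (0 : ℚ) < w2 := by exact_mod_cast (by omega : 0 < w2)
        rw [abs_of_neg a1', abs_of_pos a2']
        field_simp
      · have a1' : (0 : ℚ) < w1 := by exact_mod_cast a1
        have a2' : (w2 : ℚ) < 0 := by exact_mod_cast (by omega : w2 < 0)
        rw [abs_of_pos a1', abs_of_neg a2']
        field_simp
    · intro P p1 p2 p3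
      refine ⟨p2, p3, ?_⟩
      rwa [huv]
    · apply hht
      · rw [Int.abs_eq_natAbs]
        omega
      · rw [Int.abs_eq_natAbs]
        omega

end Pool.Agent.X286.Sz
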